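import Mathlib

/-!
# A double counting lemma for families of `m`-subsets that meet all `K`-subsets
-/

set_option autoImplicit false

namespace Pool.Agent.Helper32K9.Str

open Finset

/-- If every `K`-element subset of `T` contains an `m`-element set of the family `G`, then `G` contains
at least the proportion `1 / K.choose m` of all `m`-element subsets of `T`. -/
theorem choose_le {M K m : ℕ} (hm : m ≤ K) (T : Finset ℕ) (hT : T.card = M) (hK : K ≤ M)
    (G : Finset (Finset ℕ)) (hG1 : ∀ H ∈ G, H ⊆ T ∧ H.card = m)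
    (hG : ∀ S ⊆ T, S.card = K → ∃ H ∈ G, H ⊆ S) :
    M.choose m ≤ K.choose m * G.card := by
  classical
  have h1 : T.powersetCard K ⊆ G.biUnion (fun H => (T.powersetCard K).filter (fun S => H ⊆ S)) := by
    intro S hS
    obtain ⟨h1, h2⟩ := Finset.mem_powersetCard.1 hS
    obtain ⟨H, hH, hHS⟩ := hG S h1 h2
    exact Finset.mem_biUnion.2 ⟨H, hH, Finset.mem_filter.2 ⟨hS, hHS⟩⟩
  have h2 : ∀ H ∈ G, ((T.powersetCard K).filter (fun S => H ⊆ S)).card ≤ (M - m).choose (K - m) := by
    intro H hH
    obtain ⟨h3, h4⟩ := hG1 H hH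
    have h5 : (T \ H).card = M - m := by rw [Finset.card_sdiff_of_subset h3, hT, h4]
    rw [← h5, ← Finset.card_powersetCard]
    apply Finset.card_le_card_of_injOn (fun S => S \ H)
    · intro S hS
      obtain ⟨h6, h7⟩ := Finset.mem_filter.1 (Finset.mem_coe.1 hS)
      obtain ⟨h8, h9⟩ := Finset.mem_powersetCard.1 h6
      rw [Finset.mem_coe, Finset.mem_powersetCard]
      exact ⟨Finset.sdiff_subset_sdiff h8 (le_refl _), by rw [Finset.card_sdiff_of_subset h7, h9, h4]⟩
    · intro S hS S' hS' h
      have h7 := (Finset.mem_filter.1 (Finset.mem_coe.1 hS)).2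
      have h7' := (Finset.mem_filter.1 (Finset.mem_coe.1 hS')).2
      have h8 : S \ H = S' \ H := h
      rw [← Finset.sdiff_union_of_subset h7, h8, Finset.sdiff_union_of_subset h7']
  have h3 : M.choose K ≤ G.card * (M - m).choose (K - m) := by
    calc M.choose K = (T.powersetCard K).card := by rw [Finset.card_powersetCard, hT]
      _ ≤ _ := Finset.card_le_card h1
      _ ≤ ∑ H ∈ G, ((T.powersetCard K).filter (fun S => H ⊆ S)).card := Finset.card_biUnion_le
      _ ≤ ∑ H ∈ G, (M - m).choose (K - m) := Finset.sum_le_sum h2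
      _ = G.card * (M - m).choose (K - m) := by rw [Finset.sum_const, smul_eq_mul]
  have h4 : M.choose K * K.choose m = M.choose m * (M - m).choose (K - m) := Nat.choose_mul hm
  have h5 : 0 < (M - m).choose (K - m) := Nat.choose_pos (by omega)
  apply Nat.le_of_mul_le_mul_right _ h5
  calc M.choose m * (M - m).choose (K - m) = M.choose K * K.choose m := h4.symm
    _ ≤ G.card * (M - m).choose (K - m) * K.choose m := Nat.mul_le_mul_right _ h3
    _ = K.choose m * G.card * (M - m).choose (K - m) := by ring

/-- the `m` smallest elements -/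
theorem exists_smallest {m : ℕ} (hm : 1 ≤ m) : ∀ (k : ℕ) (H : Finset ℕ), H.card = m + k →
    ∃ H' ⊆ H, H'.card = m ∧ ∀ y ∈ H, y ≤ H'.sup id → y ∈ H' := by
  intro k
  induction k with
  | zero => exact fun H hH => ⟨H, le_refl _, hH, fun y hy _ => hy⟩
  | succ k ih =>
    intro H hH
    have hne : H.Nonempty := by
      rw [← Finset.card_pos]
      omega
    obtain ⟨H', h1, h2, h3⟩ := ih (H.erase (H.max' hne)) (by
      rw [Finset.card_erase_of_mem (Finset.max'_mem _ _)]
      omega)
    refine ⟨H', h1.trans (Finset.erase_subset _ _), h2, fun y hy hys => ?_⟩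
    apply h3 y _ hys
    rw [Finset.mem_erase]
    refine ⟨fun h => ?_, hy⟩
    have hne' : H'.Nonempty := by
      rw [← Finset.card_pos]
      omega
    obtain ⟨b, hb, hb'⟩ := Finset.exists_mem_eq_sup H' hne' id
    have h4 := h1 hb
    rw [Finset.mem_erase] at h4
    have h5 := Finset.le_max' H b h4.2
    have h6 : b ≠ H.max' hne := h4.1
    rw [hb', id_eq] at hys
    omega

end Pool.Agent.Helper32K9.Str
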