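import Pool.Agent.Helper32K9.Str.Prop

/-!
# A positive proportion of the patterns of primes with index in a residue class
-/

set_option autoImplicit false

namespace Pool.Agent.Helper32K9.Str

open Finset Filter Polynomial
open Pool.Agent.R498.MP (AP stringsCR nth_in_window)

/-- `x + H` is the set of `r + 1` consecutive terms `p_(u (k + i) + a)`, `i ≤ r`, (indices from `0`) of the
subsequence of the primes with index `≡ a` modulo `u`, all in `(N, 2 N]`, `≡ e` modulo `q`, and with almost prime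
values. -/
def OccursI (f : ℤ[X]) (q e u a r R : ℕ) (δ : ℝ) (N : ℕ) (H : Finset ℕ) : Prop :=
  ∃ x k : ℕ, H.image (fun h => x + h) = (Finset.range (r + 1)).image (fun i => Nat.nth Nat.Prime (u * (k + i) + a)) ∧
    ∀ h ∈ H, N < x + h ∧ x + h ≤ 2 * N ∧ x + h ≡ e [MOD q] ∧ AP R ((N : ℝ) ^ δ) (f.eval ((x + h : ℕ) : ℤ))

/-- **A positive proportion of the patterns in the index classes.** -/
theorem index_prop (f : ℤ[X]) (hz : ∀ n : ℤ, n ≠ 0 → f.eval n ≠ 0)
    (hadm : ∀ p : ℕ, p.Prime → ∃ n : ℤ, ¬ (p : ℤ) ∣ n * f.eval n)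
    (q e : ℕ) (hq : Squarefree q)
    (he : ∀ p : ℕ, p.Prime → p ∣ q → ¬ (p : ℤ) ∣ (e : ℤ) * f.eval (e : ℤ)) (u r : ℕ) (hu : 1 ≤ u) :
    ∃ (C R : ℕ) (δ : ℝ), 0 < C ∧ 0 < δ ∧ ∀ T : Finset ℕ, C ≤ T.card → ∀ a : ℕ, ∀ᶠ N : ℕ in atTop,
      T.card.choose (r + 1) ≤ C * {H : Finset ℕ | H ⊆ T ∧ H.card = r + 1 ∧ OccursI f q e u a r R δ N H}.ncard := by
  classical
  obtain ⟨K, R, δ, hδ, hmain⟩ := stringsCR f hz hadm q e hq he (u * (r + 2) + 1)
  obtain ⟨K', hK'⟩ : ∃ K', K' = max K (r + 1) := ⟨_, rfl⟩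
  have hKK' : K ≤ K' := by omega
  have hrK' : r + 1 ≤ K' := by omega
  refine ⟨max K' (K'.choose (r + 1)), R, δ, by omega, hδ, fun T hT a => ?_⟩
  have hinf := Nat.infinite_setOfPred_prime
  have h1 : ∀ S : Finset ℕ, ∃ B : ℕ, K ≤ S.card → ∀ᶠ N : ℕ in atTop, ∃ H ⊆ S, u * (r + 2) + 1 ≤ H.card ∧
      ∃ n d : ℕ, 1 ≤ d ∧ (d : ℝ) ≤ Real.log N ^ B ∧ ∀ j < 1, N < n + j * d ∧ n + j * d + S.sup id ≤ 2 * N ∧
          (∀ y ≤ S.sup id, (n + j * d + y).Prime ↔ y ∈ H) ∧
          ∀ h ∈ H, n + j * d + h ≡ e [MOD q] ∧ AP R ((N : ℝ) ^ δ) (f.eval ((n + j * d + h : ℕ) : ℤ)) := by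
    intro S
    by_cases hS : K ≤ S.card
    · obtain ⟨B, hB⟩ := hmain S hS 1
      exact ⟨B, fun _ => hB⟩
    · exact ⟨0, fun h => absurd h hS⟩
  choose B hB using h1
  have h2 : ∀ᶠ N : ℕ in atTop, ∀ S ∈ T.powerset.filter (fun S => K ≤ S.card),
      ∃ H ⊆ S, u * (r + 2) + 1 ≤ H.card ∧
      ∃ n d : ℕ, 1 ≤ d ∧ (d : ℝ) ≤ Real.log N ^ (B S) ∧ ∀ j < 1, N < n + j * d ∧ n + j * d + S.sup id ≤ 2 * N ∧
          (∀ y ≤ S.sup id, (n + j * d + y).Prime ↔ y ∈ H) ∧
          ∀ h ∈ H, n + j * d + h ≡ e [MOD q] ∧ AP R ((N : ℝ) ^ δ) (f.eval ((n + j * d + h : ℕ) : ℤ)) := by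
    rw [Filter.eventually_all_finset]
    intro S hS
    exact hB S (Finset.mem_filter.1 hS).2
  filter_upwards [h2, eventually_ge_atTop (Nat.nth Nat.Prime (a + u))] with N hN hN3
  have hfin : {H : Finset ℕ | H ⊆ T ∧ H.card = r + 1 ∧ OccursI f q e u a r R δ N H}.Finite := by
    apply (T.powersetCard (r + 1)).finite_toSet.subset
    rintro H ⟨h1, h2, -⟩
    exact Finset.mem_coe.2 (Finset.mem_powersetCard.2 ⟨h1, h2⟩)
  rw [Set.ncard_eq_toFinset_card _ hfin]
  refine le_trans ?_ (Nat.mul_le_mul_right _ (le_max_right _ _))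
  apply choose_le hrK' T rfl ((le_max_left _ _).trans hT)
  · intro H hH
    rw [Set.Finite.mem_toFinset] at hH
    exact ⟨hH.1, hH.2.1⟩
  · intro S hST hSK
    obtain ⟨H, hH, hHm, n, d, h3, h4, h5⟩ := hN S (Finset.mem_filter.2 ⟨Finset.mem_powerset.2 hST, by omega⟩)
    obtain ⟨h1, h2, g1, g2⟩ := h5 0 (by omega)
    simp only [zero_mul, add_zero] at h1 h2 g1 g2
    have hHC : ∀ h ∈ H, h ≤ S.sup id := fun h hh => Finset.le_sup (f := id) (hH hh)
    obtain ⟨A, hA⟩ : ∃ A, A = Nat.count Nat.Prime n := ⟨_, rfl⟩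
    have hw := nth_in_window n (S.sup id) H hHC g1
    rw [← hA] at hw
    have hA1 : a + u ≤ A := by
      by_contra hcon
      push Not at hcon
      rw [hA] at hcon
      have h6 : n ≤ Nat.nth Nat.Prime (a + u) := by
        by_contra h7
        push Not at h7
        have h8 := Nat.count_strict_mono (Nat.prime_nth_prime (a + u)) h7
        rw [Nat.count_nth_of_infinite hinf] at h8
        omega
      omega
    obtain ⟨k, hk⟩ : ∃ k, k = (A - a) / u + 1 := ⟨_, rfl⟩
    have hk1 : u * ((A - a) / u) ≤ A - a := Nat.mul_div_le _ _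
    have hk2 : A - a < u * ((A - a) / u + 1) := Nat.lt_mul_div_succ _ hu
    rw [← hk] at hk2
    have hk3 : u * k ≤ A - a + u := by
      rw [hk, mul_add, mul_one]
      omega
    have hin : ∀ i ≤ r, ∃ h ∈ H, Nat.nth Nat.Prime (u * (k + i) + a) = n + h := by
      intro i hi
      have hi1 : u * (k + i) ≤ A - a + u + u * r := by
        have h6 : u * (k + i) = u * k + u * i := by ring
        have h7 : u * i ≤ u * r := Nat.mul_le_mul_left _ hi
        omega
      have hi2 : A ≤ u * (k + i) + a := by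
        have h6 : u * (k + i) = u * k + u * i := by ring
        omega
      have e1 : u * (r + 2) + 1 = u * r + u + u + 1 := by ring
      exact hw (u * (k + i) + a) hi2 (by omega)
    have hmono : StrictMono (fun i : ℕ => Nat.nth Nat.Prime (u * (k + i) + a)) := by
      intro i j hij
      apply Nat.nth_strictMono hinf
      have : u * (k + i) < u * (k + j) := Nat.mul_lt_mul_of_pos_left (by omega) hu
      omega
    obtain ⟨H', hH'⟩ : ∃ H', H' = (Finset.range (r + 1)).image (fun i => Nat.nth Nat.Prime (u * (k + i) + a) - n) := ⟨_, rfl⟩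
    have hge : ∀ i ≤ r, n ≤ Nat.nth Nat.Prime (u * (k + i) + a) := fun i hi => by
      obtain ⟨h, -, hh⟩ := hin i hi
      omega
    have hsub : H' ⊆ H := by
      intro y hy
      rw [hH', Finset.mem_image] at hy
      obtain ⟨i, hi, rfl⟩ := hy
      obtain ⟨h, hh, hh2⟩ := hin i (by rw [Finset.mem_range] at hi; omega)
      rw [hh2, Nat.add_sub_cancel_left]
      exact hh
    have hcard : H'.card = r + 1 := by
      rw [hH', Finset.card_image_of_injOn, Finset.card_range]
      intro i hi j hj hij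
      have hi' : i < r + 1 := Finset.mem_range.1 (Finset.mem_coe.1 hi)
      have hj' : j < r + 1 := Finset.mem_range.1 (Finset.mem_coe.1 hj)
      have e1 := hge i (by omega)
      have e2 := hge j (by omega)
      apply hmono.injective
      simp only at hij ⊢
      omega
    refine ⟨H', ?_, hsub.trans hH⟩
    rw [Set.Finite.mem_toFinset]
    refine ⟨(hsub.trans hH).trans hST, hcard, n, k, ?_, fun h hh => ?_⟩
    · rw [hH', Finset.image_image]
      apply Finset.image_congr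
      intro i hi
      have hi' : i < r + 1 := Finset.mem_range.1 (Finset.mem_coe.1 hi)
      have e1 := hge i (by omega)
      simp only [Function.comp_apply]
      omega
    · have h6 := hHC h (hsub hh)
      exact ⟨by omega, by omega, g2 h (hsub hh)⟩

end Pool.Agent.Helper32K9.Str
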