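import Pool.Agent.R498.MP.StrC
import Pool.Agent.Helper32K9.Str.Count

/-!
# A positive proportion of the patterns of `m` consecutive primes with almost prime values
-/

set_option autoImplicit false

namespace Pool.Agent.Helper32K9.Str

open Finset Filter Polynomial

/-- The abstract step: if, for large `N`, every `K`-subset `S` of a finite set contains a set `H` with at
least `m` elements which has the property `P H` (at `N`) and `P` is inherited by the set of the `m` smallest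
elements, then the `m`-subsets with the property `Q` have a positive proportion. -/
theorem proportion {K m : ℕ} (hm : 1 ≤ m) (hmK : m ≤ K) (T : Finset ℕ) (hT : K ≤ T.card)
    (P Q : Finset ℕ → Prop)
    (hP : ∀ S ⊆ T, S.card = K → ∃ H ⊆ S, m ≤ H.card ∧ P H)
    (hPQ : ∀ H H' : Finset ℕ, P H → H' ⊆ H → H'.card = m → (∀ y ∈ H, y ≤ H'.sup id → y ∈ H') → Q H') :
    T.card.choose m ≤ K.choose m * {H : Finset ℕ | H ⊆ T ∧ H.card = m ∧ Q H}.ncard := by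
  classical
  have hfin : {H : Finset ℕ | H ⊆ T ∧ H.card = m ∧ Q H}.Finite := by
    apply (T.powersetCard m).finite_toSet.subset
    rintro H ⟨h1, h2, -⟩
    exact Finset.mem_coe.2 (Finset.mem_powersetCard.2 ⟨h1, h2⟩)
  rw [Set.ncard_eq_toFinset_card _ hfin]
  apply choose_le hmK T rfl hT
  · intro H hH
    rw [Set.Finite.mem_toFinset] at hH
    exact ⟨hH.1, hH.2.1⟩
  · intro S hS hSK
    obtain ⟨H, h1, h2, h3⟩ := hP S hS hSK
    obtain ⟨k, hk⟩ := Nat.exists_eq_add_of_le h2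
    obtain ⟨H', h4, h5, h6⟩ := exists_smallest hm k H hk
    refine ⟨H', ?_, h4.trans h1⟩
    rw [Set.Finite.mem_toFinset]
    exact ⟨(h4.trans h1).trans hS, h5, hPQ H H' h3 h4 h5 h6⟩

/-- `H` is a pattern of consecutive primes `≡ a` modulo `q`, `f` at them has at most `r` prime factors, all at
least `N ^ δ`, and the pattern occurs at all terms of a progression of length `l` with difference at most
`log ^ B N` in `(N, 2 N]`. -/
def Occurs (f : ℤ[X]) (q a r : ℕ) (δ : ℝ) (l B N : ℕ) (H : Finset ℕ) : Prop :=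
  ∃ n d : ℕ, 1 ≤ d ∧ (d : ℝ) ≤ Real.log N ^ B ∧ ∀ j < l, N < n + j * d ∧ n + j * d + H.sup id ≤ 2 * N ∧
    (∀ y ≤ H.sup id, (n + j * d + y).Prime ↔ y ∈ H) ∧
    ∀ h ∈ H, n + j * d + h ≡ a [MOD q] ∧
      Pool.Agent.R498.MP.AP r ((N : ℝ) ^ δ) (f.eval ((n + j * d + h : ℕ) : ℤ))

/-- **A positive proportion of the patterns.** -/
theorem strings_prop (f : ℤ[X]) (hz : ∀ n : ℤ, n ≠ 0 → f.eval n ≠ 0)
    (hadm : ∀ p : ℕ, p.Prime → ∃ n : ℤ, ¬ (p : ℤ) ∣ n * f.eval n)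
    (q a : ℕ) (hq : Squarefree q)
    (ha : ∀ p : ℕ, p.Prime → p ∣ q → ¬ (p : ℤ) ∣ (a : ℤ) * f.eval (a : ℤ)) (m : ℕ) (hm : 1 ≤ m) :
    ∃ (C r : ℕ) (δ : ℝ), 0 < C ∧ 0 < δ ∧ ∀ T : Finset ℕ, C ≤ T.card → ∀ l : ℕ,
      ∃ B : ℕ, ∀ᶠ N : ℕ in atTop,
        T.card.choose m ≤ C * {H : Finset ℕ | H ⊆ T ∧ H.card = m ∧ Occurs f q a r δ l B N H}.ncard := by
  classical
  obtain ⟨K, r, δ, hδ, hmain⟩ := Pool.Agent.R498.MP.stringsCR f hz hadm q a hq ha m
  obtain ⟨K', hK'⟩ : ∃ K', K' = max K m := ⟨_, rfl⟩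
  have hKK' : K ≤ K' := by omega
  have hmK' : m ≤ K' := by omega
  refine ⟨max K' (K'.choose m), r, δ, by omega, hδ, fun T hT l => ?_⟩
  have h1 : ∀ S : Finset ℕ, ∃ B : ℕ, K ≤ S.card → ∀ᶠ N : ℕ in atTop, ∃ H ⊆ S, m ≤ H.card ∧ ∃ n d : ℕ, 1 ≤ d ∧
        (d : ℝ) ≤ Real.log N ^ B ∧ ∀ j < l, N < n + j * d ∧ n + j * d + S.sup id ≤ 2 * N ∧
          (∀ y ≤ S.sup id, (n + j * d + y).Prime ↔ y ∈ H) ∧
          ∀ h ∈ H, n + j * d + h ≡ a [MOD q] ∧
            Pool.Agent.R498.MP.AP r ((N : ℝ) ^ δ) (f.eval ((n + j * d + h : ℕ) : ℤ)) := by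
    intro S
    by_cases hS : K ≤ S.card
    · obtain ⟨B, hB⟩ := hmain S hS l
      exact ⟨B, fun _ => hB⟩
    · exact ⟨0, fun h => absurd h hS⟩
  choose B hB using h1
  refine ⟨(T.powerset).sup B, ?_⟩
  have h2 : ∀ᶠ N : ℕ in atTop, ∀ S ∈ T.powerset.filter (fun S => K ≤ S.card),
      ∃ H ⊆ S, m ≤ H.card ∧ ∃ n d : ℕ, 1 ≤ d ∧
        (d : ℝ) ≤ Real.log N ^ (B S) ∧ ∀ j < l, N < n + j * d ∧ n + j * d + S.sup id ≤ 2 * N ∧
          (∀ y ≤ S.sup id, (n + j * d + y).Prime ↔ y ∈ H) ∧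
          ∀ h ∈ H, n + j * d + h ≡ a [MOD q] ∧
            Pool.Agent.R498.MP.AP r ((N : ℝ) ^ δ) (f.eval ((n + j * d + h : ℕ) : ℤ)) := by
    rw [Filter.eventually_all_finset]
    intro S hS
    exact hB S (Finset.mem_filter.1 hS).2
  filter_upwards [h2, eventually_ge_atTop 3] with N hN hN3
  have hlog : 1 ≤ Real.log N := by
    rw [Real.le_log_iff_exp_le (by positivity)]
    have h3 : Real.exp 1 < 3 := by
      have := Real.exp_one_lt_d9
      linarith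
    have h4 : (3 : ℝ) ≤ N := by exact_mod_cast hN3
    linarith
  have key := proportion hm hmK' T ((le_max_left _ _).trans hT)
    (fun H => ∃ S ⊆ T, H ⊆ S ∧ ∃ n d : ℕ, 1 ≤ d ∧
        (d : ℝ) ≤ Real.log N ^ (B S) ∧ ∀ j < l, N < n + j * d ∧ n + j * d + S.sup id ≤ 2 * N ∧
          (∀ y ≤ S.sup id, (n + j * d + y).Prime ↔ y ∈ H) ∧
          ∀ h ∈ H, n + j * d + h ≡ a [MOD q] ∧
            Pool.Agent.R498.MP.AP r ((N : ℝ) ^ δ) (f.eval ((n + j * d + h : ℕ) : ℤ)))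
    (Occurs f q a r δ l (T.powerset.sup B) N) ?_ ?_
  · refine key.trans (Nat.mul_le_mul_right _ (le_max_right _ _))
  · intro S hS hSK
    obtain ⟨H, h3, h4, h5⟩ := hN S (Finset.mem_filter.2 ⟨Finset.mem_powerset.2 hS, by omega⟩)
    exact ⟨H, h3, h4, S, hS, h3, h5⟩
  · rintro H H' ⟨S, hS, hHS, n, d, h3, h4, h5⟩ hH' hcard hy
    have h6 : B S ≤ T.powerset.sup B := Finset.le_sup (f := B) (Finset.mem_powerset.2 hS)
    have h7 : H'.sup id ≤ S.sup id := Finset.sup_mono (hH'.trans hHS)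
    refine ⟨n, d, h3, h4.trans (pow_le_pow_right₀ hlog h6), fun j hj => ?_⟩
    obtain ⟨g1, g2, g3, g4⟩ := h5 j hj
    refine ⟨g1, by omega, fun y hys => ⟨fun hp => ?_, fun hyH => (g3 y (by omega)).2 (hH' hyH)⟩,
      fun h hh => g4 h (hH' hh)⟩
    exact hy y ((g3 y (by omega)).1 hp) hys

end Pool.Agent.Helper32K9.Str
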